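import Pool.Agent.Results.MP_b525bf_ag.AdmissibleTowers
import Pool.Agent.Run7.h945.TR.Rep2

/-!
MP_b525bf_ag: resolution of the quotients of `S × A ^ r`, where `S` is an affine variety of any
dimension over a perfect field of characteristic `p`, by finite families of group schemes of order
`p` which act on the fibres `A ^ r` by `z ↦ z + θ * g (s, z) * v (s)` with arbitrary
coefficient functions `g` that are invariant under the translations `z ↦ z + t * v (s)`
(*replicas* of this additive group action).

The group schemes have the coordinate rings `B[z][θ] / (θ ^ p - b * θ)`, `S = Spec B`. The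
coefficient `b` is also an arbitrary function of `(s, z)` invariant under `z ↦ z + t * v (s)`, and
the number of group schemes is arbitrary; the functions `v j` on `S` and the coordinates of `S` are
in the set `P` of an admissible pair `(K, P)` of the starting file
`MP_b525bf_ag.AdmissibleTowers`, where `K` is the function field of `S` (for example, `S` is any
affine surface with a smooth projective model, and the `v j` are arbitrary).

Examples. (1) `b = 1`: the quotients by the elementary abelian `p`-groups of the automorphisms
`z ↦ z + g i (s, z) * v (s)`, for example by groups of transvections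
`z ↦ z + φ i (s) (z) * v (s)`, where the `φ i (s)` are linear forms with `φ i (s) (v (s)) = 0`. If
`r ≥ 2`, these automorphisms are not translations, and their fixed points, the zeros of `g i * v`,
are an arbitrary hypersurface together with the zeros of `v`. (2) `b = 0`: the quotients by the
vector fields `g i (s, z) * ∑ v j (s) * ∂/∂z j`. (3) `b = a ^ (p - 1)`: degenerations of (1) to (2).

The proof: the functions `v j` divide each other on the charts `Spec A` of a smooth variety which is
proper and birational over `S` (`exists_model2`). With a pivot `v i`, `v j = c j * v i`, the ring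
`A[z]` is the polynomial ring `Q[z i]` over the ring `Q` of invariants of the additive group, which
is a polynomial ring in `z j - c j * z i` (`ps_of_ga`). So the group schemes act by translations of
one variable over the smooth ring `Q`, and the ring of invariants is a polynomial ring over
`Q` (`good_unit`, `smooth_rep`). The ring `A[z]` is integral over the invariants in `B[z]`: the
invariants are found in `Q₀[z j]`, where `Q₀` is the ring of the invariants of the additive group in
`B[z]` (`isIntegral_rep`). So the quotients over the charts are glued to a resolution (`atl_gen`).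

helper945; built on the library of the starting files (helpers 558, 762, 98 and their teams).
-/

set_option autoImplicit false

open AlgebraicGeometry CategoryTheory Pool.Agent.W558
  Pool.Agent.Results.MP_b525bf_ag.AdmissibleTowers

namespace Pool.Agent.Results.MP_b525bf_ag.ReplicaQuotients

section defs

variable {B : Type} [CommRing B] {m r : ℕ}

/-- The homomorphism `f (z) ↦ f (z + θ * w (z))` from the polynomial ring `B[z]` in
`z 1, ..., z r` to `B[z][θ]`, for a vector `w` of elements of `B[z]`. -/
noncomputable def shift (w : Fin r → MvPolynomial (Fin r) B) :
    MvPolynomial (Fin r) B →ₐ[B] Polynomial (MvPolynomial (Fin r) B) :=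
  MvPolynomial.aeval fun j => Polynomial.C (MvPolynomial.X j) + Polynomial.C (w j) * Polynomial.X

/-- The polynomial `f` in `z` over `B` is invariant under the translations `z ↦ z + t * v` of the
additive group: `f (z + t * v) = f (z)`. -/
def IsTranslationInvariant (v : Fin r → B) (f : MvPolynomial (Fin r) B) : Prop :=
  shift (fun j => MvPolynomial.C (v j)) f = Polynomial.C f

/-- The polynomial `f` in `z` over `B` is invariant under the action `z ↦ z + θ * w (z)` of the
group scheme with the coordinate ring `B[z][θ] / (θ ^ p - b * θ)`: modulo `θ ^ p - b * θ` one has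
`f (z + θ * w (z)) = f (z)`. -/
def IsInvariant (p : ℕ) (b : MvPolynomial (Fin r) B) (w : Fin r → MvPolynomial (Fin r) B)
    (f : MvPolynomial (Fin r) B) : Prop :=
  Polynomial.X ^ p - Polynomial.C b * Polynomial.X ∣ shift w f - Polynomial.C f

/-- The algebra of the polynomials in `z` over `B` which are invariant under the actions
`z ↦ z + θ * w i (z)` of the group schemes with the coordinate rings
`B[z][θ] / (θ ^ p - b i * θ)`. -/
noncomputable def invariants (k : Type) [Field k] [Algebra k B] (p : ℕ)
    (b : Fin m → MvPolynomial (Fin r) B) (w : Fin m → Fin r → MvPolynomial (Fin r) B) :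
    Subalgebra k (MvPolynomial (Fin r) B) where
  carrier := {f | ∀ i, IsInvariant p (b i) (w i) f}
  mul_mem' := fun hf hg i => Pool.Agent.Run7.h945.TR.InvR.mul (hf i) (hg i)
  add_mem' := fun hf hg i => Pool.Agent.Run7.h945.TR.InvR.add (hf i) (hg i)
  algebraMap_mem' := fun a i =>
    Pool.Agent.Run7.h945.TR.InvR.const p (b i) (w i) (algebraMap k B a)

/-- The quotient of `Spec B × A ^ r` by the group schemes. -/
noncomputable def quot (k : Type) [Field k] [Algebra k B] (p : ℕ)
    (b : Fin m → MvPolynomial (Fin r) B) (w : Fin m → Fin r → MvPolynomial (Fin r) B) :
    Scheme.{0} :=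
  Spec (CommRingCat.of (invariants k p b w))

/-- The structure morphism of the quotient. -/
noncomputable def quotStr (k : Type) [Field k] [Algebra k B] (p : ℕ)
    (b : Fin m → MvPolynomial (Fin r) B) (w : Fin m → Fin r → MvPolynomial (Fin r) B) :
    quot k p b w ⟶ Spec (CommRingCat.of k) :=
  Spec.map (CommRingCat.ofHom (algebraMap k (invariants k p b w)))

end defs

/-- Let `k` be a perfect field of characteristic `p`, and let `(K, P)` be an admissible pair, for
example `P = K` for the function field `K` of a surface. Let `S = Spec B` be an affine variety over
`k` with the function field `K`, which has a finite morphism to an affine space with coordinate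
functions in `P`. Let `v j` be functions on `S` in `P`, for `j < r`. Let `g i` and `b i` be
functions on `S × A ^ r`, for `i < m`, which are invariant under the translations
`z ↦ z + t * v (s)` of the additive group, and otherwise arbitrary. The quotient of `S × A ^ r` by
the group schemes with the coordinate rings `B[z][θ] / (θ ^ p - b i * θ)`, which act by
`z ↦ z + θ * g i (s, z) * v (s)`, is a variety and has a resolution of singularities. -/
theorem result (p : ℕ) [Fact p.Prime] (k : Type) [Field k] [PerfectField k] [CharP k p]
    (K : Type) [Field K] [Algebra k K] (P : Set K) (hP : IsAdmissible p k K P)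
    (B : Type) [CommRing B] [IsDomain B] [Algebra k B] [Algebra.FiniteType k B] [Algebra B K]
    [IsScalarTower k B K] [IsFractionRing B K]
    (s : Finset B) (hs : ∀ x ∈ s, algebraMap B K x ∈ P)
    (hint : ∀ x : B, IsIntegral (Algebra.adjoin k (s : Set B)) x)
    (m r : ℕ) (v : Fin r → B) (hv : ∀ j, algebraMap B K (v j) ∈ P)
    (g b : Fin m → MvPolynomial (Fin r) B) (hg : ∀ i, IsTranslationInvariant v (g i))
    (hb : ∀ i, IsTranslationInvariant v (b i)) :
    IsResolvableVariety (quotStr k p b (fun i j => g i * MvPolynomial.C (v j))) := by
  have hp : p.Prime := Fact.out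
  have hM := mod_of_admissible p k K P hP
  have hBp : CharP B p := charP_of_injective_algebraMap (algebraMap k B).injective p
  let l : List (MvPolynomial (Fin r) B × MvPolynomial (Fin r) B) := List.ofFn fun i => (b i, g i)
  have hsh : ∀ f, IsTranslationInvariant v f → Pool.Agent.Run7.h945.TR.Fs v f = Polynomial.C f :=
    fun f hf => hf
  have hl : ∀ x ∈ l, Pool.Agent.Run7.h945.TR.Fs v x.1 = Polynomial.C x.1 ∧
      Pool.Agent.Run7.h945.TR.Fs v x.2 = Polynomial.C x.2 := by
    intro x hx
    obtain ⟨i, rfl⟩ := List.mem_ofFn.1 hx
    exact ⟨hsh _ (hb i), hsh _ (hg i)⟩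
  have heq : invariants k p b (fun i j => g i * MvPolynomial.C (v j)) =
      Pool.Agent.Run7.h945.TR.RI k p v l := by
    ext f
    change (∀ i, IsInvariant p (b i) (fun j => g i * MvPolynomial.C (v j)) f) ↔
      ∀ x ∈ l, Pool.Agent.Run7.h945.TR.InvR p x.1 (Pool.Agent.Run7.h945.TR.gv x.2 v) f
    rw [List.forall_mem_ofFn_iff]
    rfl
  have key : ∀ C : Subalgebra k (MvPolynomial (Fin r) B),
      C = Pool.Agent.Run7.h945.TR.RI k p v l →
      IsResolvableVariety (X := Spec (CommRingCat.of C))
        (Spec.map (CommRingCat.ofHom (algebraMap k C))) := by
    rintro _ rfl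
    have h1 : Algebra.FiniteType k (Pool.Agent.Run7.h945.TR.RI k p v l) :=
      Pool.Agent.Run7.h945.TR.finiteType_of_isIntegral_X _
        (Pool.Agent.Run7.h945.TR.C_mem_RI k p v l)
        (Pool.Agent.Run7.h945.TR.isIntegral_rep (p := p) l hl
          (Pool.Agent.Run7.h945.TR.RI k p v l).toSubring fun f hf => hf)
    exact isResolvableVariety_spec
      (Pool.Agent.Run7.h945.TR.hasResolution_rep hM s hs hint v hv l hl)
  exact key _ heq

end Pool.Agent.Results.MP_b525bf_ag.ReplicaQuotients
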